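import Pool.Agent.H172R3.GS4

/-!
# Finite-energy gravitating Abelian Higgs strings beyond the symmetric bound

The self-dual Einstein and Abelian Higgs equations on the plane have finite-energy solutions with
arbitrarily many strings, at arbitrary points, as soon as the multiplicity `n_k` of every single
string satisfies `4 π ε² G n_k < 1`.

The solution is found between a constant and a smooth supersolution which is large (of size
`log (1/s)`) in discs of squared radius `s` around the strings.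
-/

set_option autoImplicit false

namespace Pool.Agent.Results.MP_e9f444_mp.ManyStrings

open MeasureTheory Filter Topology Set

/-! ### The definitions of the problem -/

/-- The plane. -/
abbrev Plane : Type := EuclideanSpace ℝ (Fin 2)

/-- Smooth functions. -/
def Smooth {F : Type} [NormedAddCommGroup F] [NormedSpace ℝ F] (f : Plane → F) : Prop :=
  ContDiff ℝ ((⊤ : ℕ∞) : WithTop ℕ∞) f

/-- The partial derivative `∂_j f`. -/
noncomputable def pd {F : Type} [NormedAddCommGroup F] [NormedSpace ℝ F] (j : Fin 2)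
    (f : Plane → F) (x : Plane) : F := fderiv ℝ f x (EuclideanSpace.single j (1 : ℝ))

/-- The metric `g_{jk} = e^η δ_{jk}`. -/
noncomputable def gLow (η : Plane → ℝ) (j k : Fin 2) (x : Plane) : ℝ :=
  if j = k then Real.exp (η x) else 0

/-- The inverse metric `g^{jk} = e^{-η} δ_{jk}`. -/
noncomputable def gUp (η : Plane → ℝ) (j k : Fin 2) (x : Plane) : ℝ :=
  if j = k then Real.exp (-η x) else 0

/-- The volume density `√g = e^η`. -/
noncomputable def volDen (η : Plane → ℝ) (x : Plane) : ℝ := Real.exp (η x)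

/-- The Gauss curvature `K_g = -(1/2) e^{-η} Δη` of the metric `e^η (dx₁² + dx₂²)`. -/
noncomputable def gaussCurvature (η : Plane → ℝ) (x : Plane) : ℝ :=
  -(1 / 2) * Real.exp (-η x) * ∑ j, pd j (pd j η) x

/-- The field strength `F_{jk} = ∂_j A_k - ∂_k A_j`. -/
noncomputable def field (A : Fin 2 → Plane → ℝ) (j k : Fin 2) (x : Plane) : ℝ :=
  pd j (A k) x - pd k (A j) x

/-- The covariant derivative `D_j φ = ∂_j φ - i A_j φ`. -/
noncomputable def covD (A : Fin 2 → Plane → ℝ) (j : Fin 2) (φ : Plane → ℂ) (x : Plane) : ℂ :=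
  pd j φ x - Complex.I * (A j x : ℂ) * φ x

/-- The energy density
`H = ¼ g^{jj'} g^{kk'} F_{jk} F_{j'k'} + ½ g^{jk} D_jφ (D_kφ)^* + ⅛ (|φ|² - ε²)²`. -/
noncomputable def energyDensity (ε : ℝ) (η : Plane → ℝ) (φ : Plane → ℂ) (A : Fin 2 → Plane → ℝ)
    (x : Plane) : ℝ :=
  1 / 4 * (∑ j, ∑ k, ∑ j', ∑ k', gUp η j j' x * gUp η k k' x * field A j k x * field A j' k' x) +
    1 / 2 * (∑ j, ∑ k, (gUp η j k x : ℂ) * (covD A j φ x * (starRingEnd ℂ) (covD A k φ x))).re +
    1 / 8 * (‖φ x‖ ^ 2 - ε ^ 2) ^ 2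

/-- The stress tensor
`T_{jk} = g^{j'k'} F_{jj'} F_{kk'} + ½ (D_jφ (D_kφ)^* + (D_jφ)^* D_kφ) - g_{jk} H`. -/
noncomputable def stress (ε : ℝ) (η : Plane → ℝ) (φ : Plane → ℂ) (A : Fin 2 → Plane → ℝ)
    (j k : Fin 2) (x : Plane) : ℝ :=
  (∑ j', ∑ k', gUp η j' k' x * field A j j' x * field A k k' x) +
    1 / 2 * (covD A j φ x * (starRingEnd ℂ) (covD A k φ x) +
      (starRingEnd ℂ) (covD A j φ x) * covD A k φ x).re -
    gLow η j k x * energyDensity ε η φ A x

/-- Smooth solutions of the coupled Einstein and Abelian Higgs equations. -/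
structure IsSolution (ε G : ℝ) (η : Plane → ℝ) (φ : Plane → ℂ) (A : Fin 2 → Plane → ℝ) :
    Prop where
  smooth_metric : Smooth η
  smooth_higgs : Smooth φ
  smooth_gauge : ∀ j, Smooth (A j)
  /-- `K_g = 8 π G H` -/
  einstein : ∀ x, gaussCurvature η x = 8 * Real.pi * G * energyDensity ε η φ A x
  /-- `T_{jk} = 0` -/
  stress_zero : ∀ j k x, stress ε η φ A j k x = 0
  /-- `(1/√g) D_j (g^{jk} √g D_k φ) = ½ (|φ|² - ε²) φ` -/
  higgs : ∀ x, ((volDen η x)⁻¹ : ℂ) *
      (∑ j, ∑ k, covD A j (fun y => ((gUp η j k y * volDen η y : ℝ) : ℂ) * covD A k φ y) x) =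
    1 / 2 * ((‖φ x‖ ^ 2 - ε ^ 2 : ℝ) : ℂ) * φ x
  /-- `(1/√g) ∂_{j'} (g^{jk} g^{j'k'} √g F_{kk'}) = (i/2) g^{jk} (φ (D_kφ)^* - φ^* D_kφ)` -/
  maxwell : ∀ j x, (((volDen η x)⁻¹ *
      (∑ j', ∑ k, ∑ k', pd j' (fun y => gUp η j k y * gUp η j' k' y * volDen η y *
        field A k k' y) x) : ℝ) : ℂ) =
    Complex.I / 2 * ∑ k, (gUp η j k x : ℂ) * (φ x * (starRingEnd ℂ) (covD A k φ x) -
      (starRingEnd ℂ) (φ x) * covD A k φ x)

/-- Finite energy: `∫ H e^η dx < ∞` and `∫ K_g e^η dx < ∞`. -/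
def FiniteEnergy (ε : ℝ) (η : Plane → ℝ) (φ : Plane → ℂ) (A : Fin 2 → Plane → ℝ) : Prop :=
  Integrable (fun x => energyDensity ε η φ A x * Real.exp (η x)) ∧
    Integrable (fun x => gaussCurvature η x * Real.exp (η x))

/-- `φ` has a zero of multiplicity `m` at `p`: `φ(x) = (z(x) - z(p))^m h(x)` with `h` smooth and
`h(p) ≠ 0`, where `z = x₁ + i x₂`. -/
def HasZero (φ : Plane → ℂ) (p : Plane) (m : ℕ) : Prop :=
  ∃ h : Plane → ℂ, Smooth h ∧ h p ≠ 0 ∧
    ∀ x, φ x = (((x 0 - p 0 : ℝ) : ℂ) + Complex.I * ((x 1 - p 1 : ℝ) : ℂ)) ^ m * h x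

/-! ### Proof -/

open Pool.Agent.H172R3.GS Pool.Agent.H314.Dir

section calculus

variable {F : Type} [NormedAddCommGroup F] [NormedSpace ℝ F]

lemma Smooth.diff {f : Plane → F} (hf : Smooth f) : Differentiable ℝ f :=
  ContDiff.differentiable hf (by norm_num)

lemma Smooth.pd {f : Plane → F} (hf : Smooth f) (j : Fin 2) : Smooth (pd j f) := by
  have h1 : ContDiff ℝ ((⊤ : ℕ∞) : WithTop ℕ∞) (fderiv ℝ f) :=
    ContDiff.fderiv_right (m := ((⊤ : ℕ∞) : WithTop ℕ∞)) hf (by norm_num)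
  exact h1.clm_apply contDiff_const

lemma pd_pd_comm {f : Plane → F} (hf : Smooth f) (j k : Fin 2) (x : Plane) :
    pd j (pd k f) x = pd k (pd j f) x := by
  have h1 : ContDiff ℝ 1 (fderiv ℝ f) := by
    have : ContDiff ℝ ((⊤ : ℕ∞) : WithTop ℕ∞) (fderiv ℝ f) :=
      ContDiff.fderiv_right (m := ((⊤ : ℕ∞) : WithTop ℕ∞)) hf (by norm_num)
    exact this.of_le (by exact_mod_cast le_top)
  have h2 : DifferentiableAt ℝ (fderiv ℝ f) x := h1.differentiable (by norm_num) x
  have e : ∀ a b : Fin 2, Pool.Agent.Results.MP_e9f444_mp.ManyStrings.pd a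
      (Pool.Agent.Results.MP_e9f444_mp.ManyStrings.pd b f) x =
      fderiv ℝ (fderiv ℝ f) x (EuclideanSpace.single a 1) (EuclideanSpace.single b 1) := by
    intro a b
    unfold Pool.Agent.Results.MP_e9f444_mp.ManyStrings.pd
    rw [fderiv_clm_apply h2 (differentiableAt_const _)]
    simp
  rw [e, e]
  have hsymm : IsSymmSndFDerivAt ℝ f x := by
    have h4 : ContDiff ℝ 2 f := by exact_mod_cast contDiff_infty.1 hf 2
    have h3 : ContDiffAt ℝ 2 f x := h4.contDiffAt
    exact h3.isSymmSndFDerivAt (by simp)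
  exact hsymm _ _

lemma pd_add' {f g : Plane → F} (hf : Smooth f) (hg : Smooth g) (j : Fin 2) (x : Plane) :
    pd j (fun y => f y + g y) x = pd j f x + pd j g x := by
  unfold pd
  rw [fderiv_fun_add (hf.diff x) (hg.diff x)]; rfl

lemma pd_sub' {f g : Plane → F} (hf : Smooth f) (hg : Smooth g) (j : Fin 2) (x : Plane) :
    pd j (fun y => f y - g y) x = pd j f x - pd j g x := by
  unfold pd
  rw [fderiv_fun_sub (hf.diff x) (hg.diff x)]; rfl

end calculus

lemma pd_mulC {f g : Plane → ℂ} (hf : Smooth f) (hg : Smooth g) (j : Fin 2) (x : Plane) :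
    pd j (fun y => f y * g y) x = pd j f x * g x + f x * pd j g x := by
  unfold pd
  rw [fderiv_fun_mul (hf.diff x) (hg.diff x)]
  simp [mul_comm, add_comm]

lemma pd_mulR {f g : Plane → ℝ} (hf : Smooth f) (hg : Smooth g) (j : Fin 2) (x : Plane) :
    pd j (fun y => f y * g y) x = pd j f x * g x + f x * pd j g x := by
  unfold pd
  rw [fderiv_fun_mul (hf.diff x) (hg.diff x)]
  simp [mul_comm, add_comm]

lemma Smooth.ofReal {f : Plane → ℝ} (hf : Smooth f) : Smooth (fun x => (f x : ℂ)) :=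
  Complex.ofRealCLM.contDiff.comp hf

lemma pd_ofReal {f : Plane → ℝ} (hf : Smooth f) (j : Fin 2) (x : Plane) :
    pd j (fun y => (f y : ℂ)) x = ((pd j f x : ℝ) : ℂ) := by
  unfold pd
  have h := (Complex.ofRealCLM.hasFDerivAt (x := f x)).comp x (hf.diff x).hasFDerivAt
  have h2 : HasFDerivAt (fun y => (f y : ℂ)) (Complex.ofRealCLM.comp (fderiv ℝ f x)) x := h
  rw [h2.fderiv]
  simp

lemma Smooth.conj {f : Plane → ℂ} (hf : Smooth f) : Smooth (fun x => (starRingEnd ℂ) (f x)) :=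
  Complex.conjCLE.contDiff.comp hf

lemma pd_conj {f : Plane → ℂ} (hf : Smooth f) (j : Fin 2) (x : Plane) :
    pd j (fun y => (starRingEnd ℂ) (f y)) x = (starRingEnd ℂ) (pd j f x) := by
  unfold pd
  have h := (Complex.conjCLE.hasFDerivAt (x := f x)).comp x (hf.diff x).hasFDerivAt
  have h2 : HasFDerivAt (fun y => (starRingEnd ℂ) (f y))
      ((Complex.conjCLE : ℂ →L[ℝ] ℂ).comp (fderiv ℝ f x)) x := h
  rw [h2.fderiv]
  simp

lemma pd_expR {f : Plane → ℝ} (hf : Smooth f) (j : Fin 2) (x : Plane) :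
    pd j (fun y => Real.exp (f y)) x = Real.exp (f x) * pd j f x := by
  unfold pd
  rw [((hf.diff x).hasFDerivAt.exp).fderiv]
  simp

lemma Smooth.covD {A : Fin 2 → Plane → ℝ} (hA : ∀ j, Smooth (A j)) {φ : Plane → ℂ}
    (hφ : Smooth φ) (j : Fin 2) : Smooth (covD A j φ) :=
  ContDiff.sub (hφ.pd j) (ContDiff.mul (ContDiff.mul contDiff_const (hA j).ofReal) hφ)

lemma covD_smul {A : Fin 2 → Plane → ℝ} {φ : Plane → ℂ} (hφ : Smooth φ) (c : ℂ) (j : Fin 2)
    (x : Plane) : covD A j (fun y => c * φ y) x = c * covD A j φ x := by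
  unfold covD
  have hc : Smooth (fun _ : Plane => c) := contDiff_const
  have h0 : pd j (fun _ : Plane => c) x = 0 := by unfold pd; simp
  rw [pd_mulC hc hφ, h0]
  ring

/-- the commutator of covariant derivatives -/
lemma covD_comm {A : Fin 2 → Plane → ℝ} (hA : ∀ j, Smooth (A j)) {φ : Plane → ℂ}
    (hφ : Smooth φ) (j k : Fin 2) (x : Plane) :
    covD A j (covD A k φ) x - covD A k (covD A j φ) x =
      -(Complex.I * (field A j k x : ℂ) * φ x) := by
  have key : ∀ a b : Fin 2, covD A a (covD A b φ) x =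
      pd a (pd b φ) x - Complex.I * (((pd a (A b) x : ℝ) : ℂ) * φ x + (A b x : ℂ) * pd a φ x) -
        Complex.I * (A a x : ℂ) * (pd b φ x - Complex.I * (A b x : ℂ) * φ x) := by
    intro a b
    have h1 : Smooth (fun y => Complex.I * ((A b y : ℂ) * φ y)) :=
      ContDiff.mul contDiff_const (ContDiff.mul (hA b).ofReal hφ)
    have hI : Smooth (fun _ : Plane => Complex.I) := contDiff_const
    have h0 : pd a (fun _ : Plane => Complex.I) x = 0 := by unfold pd; simp
    have e : (covD A b φ) = fun y => pd b φ y - Complex.I * ((A b y : ℂ) * φ y) := by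
      funext y; unfold covD; ring
    unfold covD at e ⊢
    rw [e, pd_sub' (hφ.pd b) h1, pd_mulC hI (ContDiff.mul (hA b).ofReal hφ), h0,
      pd_mulC (hA b).ofReal hφ, pd_ofReal (hA b)]
    ring
  rw [key, key, pd_pd_comm hφ j k]
  unfold field
  push_cast
  ring

/-- gradient of `|φ|²` -/
lemma pd_normSq {A : Fin 2 → Plane → ℝ} {φ : Plane → ℂ} (hφ : Smooth φ) (j : Fin 2) (x : Plane) :
    pd j (fun y => ‖φ y‖ ^ 2) x = 2 * ((starRingEnd ℂ) (φ x) * covD A j φ x).re := by
  have hs : Smooth (fun y => ‖φ y‖ ^ 2) := ContDiff.norm_sq ℝ hφ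
  have h1 : (fun y => ((‖φ y‖ ^ 2 : ℝ) : ℂ)) = fun y => (starRingEnd ℂ) (φ y) * φ y := by
    funext y
    rw [← Complex.normSq_eq_norm_sq, mul_comm, Complex.mul_conj]
  have h2 := pd_ofReal hs j x
  rw [h1, pd_mulC hφ.conj hφ, pd_conj hφ] at h2
  have h3 := congrArg Complex.re h2
  rw [Complex.ofReal_re] at h3
  rw [← h3]
  unfold covD
  simp only [Complex.add_re, Complex.mul_re, Complex.sub_re, Complex.sub_im, Complex.conj_re,
    Complex.conj_im, Complex.mul_im, Complex.I_re, Complex.I_im, Complex.ofReal_re,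
    Complex.ofReal_im]
  ring

/-- derivative of the real part of `ψ₁^* ψ₂` -/
lemma pd_reConj {A : Fin 2 → Plane → ℝ} {φ ψ : Plane → ℂ}
    (hφ : Smooth φ) (hψ : Smooth ψ) (j : Fin 2) (x : Plane) :
    pd j (fun y => ((starRingEnd ℂ) (φ y) * ψ y).re) x =
      ((starRingEnd ℂ) (covD A j φ x) * ψ x + (starRingEnd ℂ) (φ x) * covD A j ψ x).re := by
  have h2 : pd j (fun y => ((starRingEnd ℂ) (φ y) * ψ y).re) x =
      (pd j (fun y => (starRingEnd ℂ) (φ y) * ψ y) x).re := by
    unfold pd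
    have hs : Smooth (fun y => (starRingEnd ℂ) (φ y) * ψ y) := ContDiff.mul hφ.conj hψ
    have h := (Complex.reCLM.hasFDerivAt (x := (starRingEnd ℂ) (φ x) * ψ x)).comp x
      (hs.diff x).hasFDerivAt
    have h3 : HasFDerivAt (fun y => ((starRingEnd ℂ) (φ y) * ψ y).re)
      (Complex.reCLM.comp (fderiv ℝ (fun y => (starRingEnd ℂ) (φ y) * ψ y) x)) x := h
    rw [h3.fderiv]
    simp
  rw [h2, pd_mulC hφ.conj hψ, pd_conj hφ]
  unfold covD
  simp only [Complex.add_re, Complex.mul_re, Complex.sub_re, Complex.sub_im, Complex.conj_re,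
    Complex.conj_im, Complex.mul_im, Complex.I_re, Complex.I_im, Complex.ofReal_re,
    Complex.ofReal_im]
  ring

/-- `lap` in terms of partial derivatives -/
lemma lap_eq_pd {f : Plane → ℝ} (hf : Smooth f) (x : Plane) : lap f x = ∑ j, pd j (pd j f) x := by
  unfold lap
  refine Finset.sum_congr rfl fun j _ => ?_
  rw [iteratedFDeriv_two_apply]
  have h1 : ContDiff ℝ 1 (fderiv ℝ f) := by
    have : ContDiff ℝ ((⊤ : ℕ∞) : WithTop ℕ∞) (fderiv ℝ f) :=
      ContDiff.fderiv_right (m := ((⊤ : ℕ∞) : WithTop ℕ∞)) hf (by norm_num)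
    exact this.of_le (by exact_mod_cast le_top)
  have h2 : DifferentiableAt ℝ (fderiv ℝ f) x := h1.differentiable (by norm_num) x
  unfold pd
  rw [fderiv_clm_apply h2 (differentiableAt_const _)]
  simp

lemma field_self (A : Fin 2 → Plane → ℝ) (j : Fin 2) (x : Plane) : field A j j x = 0 := by
  unfold field; ring

lemma field_swap (A : Fin 2 → Plane → ℝ) (x : Plane) : field A 1 0 x = -field A 0 1 x := by
  unfold field; ring

lemma normSq_eq (z : ℂ) : z * (starRingEnd ℂ) z = ((‖z‖ ^ 2 : ℝ) : ℂ) := by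
  rw [Complex.mul_conj, Complex.normSq_eq_norm_sq]

lemma maxwell_aux0 (r : ℝ) (u w : ℂ) :
    ((r * (-(1 / 2) * (2 * ((starRingEnd ℂ) u * (Complex.I * w)).re)) : ℝ) : ℂ) =
      Complex.I / 2 * ((r : ℂ) * (u * (starRingEnd ℂ) w - (starRingEnd ℂ) u * w)) := by
  apply Complex.ext
  · simp [Complex.mul_re, Complex.mul_im, Complex.div_re, Complex.div_im]
    ring
  · simp [Complex.mul_re, Complex.mul_im, Complex.div_re, Complex.div_im]
    try ring_nf
    try simp

lemma maxwell_aux1 (r : ℝ) (u w : ℂ) :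
    ((r * (1 / 2 * (2 * ((starRingEnd ℂ) u * w).re)) : ℝ) : ℂ) =
      Complex.I / 2 * ((r : ℂ) * (u * (starRingEnd ℂ) (Complex.I * w) -
        (starRingEnd ℂ) u * (Complex.I * w))) := by
  apply Complex.ext
  · simp [Complex.mul_re, Complex.mul_im, Complex.div_re, Complex.div_im]
    ring
  · simp [Complex.mul_re, Complex.mul_im, Complex.div_re, Complex.div_im]
    try ring_nf
    try simp

/-- The first order (self-dual) equations. -/
structure BPS (ε G : ℝ) (η v : Plane → ℝ) (φ : Plane → ℂ) (A : Fin 2 → Plane → ℝ) : Prop where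
  hη : Smooth η
  hv : Smooth v
  hφ : Smooth φ
  hA : ∀ j, Smooth (A j)
  b1 : ∀ x, covD A 1 φ x = Complex.I * covD A 0 φ x
  b2 : ∀ x, field A 0 1 x = -(1 / 2) * Real.exp (η x) * (‖φ x‖ ^ 2 - ε ^ 2)
  b3 : ∃ c : ℝ, ∀ x, η x = c + 4 * Real.pi * G * (ε ^ 2 * v x - ‖φ x‖ ^ 2)
  b4 : ∀ x, ∑ j, pd j (pd j v) x = Real.exp (η x) * (‖φ x‖ ^ 2 - ε ^ 2)

namespace BPS

variable {ε G : ℝ} {η v : Plane → ℝ} {φ : Plane → ℂ} {A : Fin 2 → Plane → ℝ}

lemma norm_D1 (h : BPS ε G η v φ A) (x : Plane) : ‖covD A 1 φ x‖ = ‖covD A 0 φ x‖ := by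
  rw [h.b1 x, norm_mul, Complex.norm_I, one_mul]

lemma energy_eq (h : BPS ε G η v φ A) (x : Plane) : energyDensity ε η φ A x =
    1 / 4 * (‖φ x‖ ^ 2 - ε ^ 2) ^ 2 + Real.exp (-η x) * ‖covD A 0 φ x‖ ^ 2 := by
  unfold energyDensity
  simp only [Fin.sum_univ_two, gUp, if_true, if_neg (by decide : ¬ (0 : Fin 2) = 1),
    if_neg (by decide : ¬ (1 : Fin 2) = 0), field_self, field_swap, normSq_eq,
    zero_mul, mul_zero, add_zero, zero_add, Complex.ofReal_zero]
  rw [← Complex.ofReal_mul, ← Complex.ofReal_mul, ← Complex.ofReal_add, Complex.ofReal_re,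
    h.norm_D1 x, h.b2 x]
  have e1 : Real.exp (-η x) * Real.exp (η x) = 1 := by rw [← Real.exp_add]; simp
  set a := Real.exp (-η x)
  set b := Real.exp (η x)
  have e2 : a * a * (b * b) = 1 := by
    calc a * a * (b * b) = (a * b) * (a * b) := by ring
      _ = 1 := by rw [e1]; ring
  set s := ‖φ x‖ ^ 2 - ε ^ 2
  set z := ‖covD A 0 φ x‖ ^ 2
  have e3 : 1 / 4 * (a * a * (-(1 / 2) * b * s) * (-(1 / 2) * b * s) +
      a * a * -(-(1 / 2) * b * s) * -(-(1 / 2) * b * s)) = 1 / 8 * s ^ 2 * (a * a * (b * b)) := by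
    ring
  rw [e3, e2]
  ring

/-- the sum of the second covariant derivatives -/
lemma sum_DD (h : BPS ε G η v φ A) (x : Plane) :
    covD A 0 (covD A 0 φ) x + covD A 1 (covD A 1 φ) x = -((field A 0 1 x : ℂ) * φ x) := by
  have hc := covD_comm h.hA h.hφ 0 1 x
  have hz : Smooth (covD A 0 φ) := Smooth.covD h.hA h.hφ 0
  have e1 : covD A 1 φ = fun y => Complex.I * covD A 0 φ y := funext h.b1
  have e2 : covD A 0 (covD A 1 φ) x = Complex.I * covD A 0 (covD A 0 φ) x := by
    rw [e1, covD_smul hz]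
  have e3 : covD A 1 (covD A 1 φ) x = Complex.I * covD A 1 (covD A 0 φ) x := by
    rw [e1, covD_smul hz]
  rw [e2] at hc
  rw [e3]
  have h4 : Complex.I * (Complex.I * covD A 0 (covD A 0 φ) x - covD A 1 (covD A 0 φ) x) =
      Complex.I * -(Complex.I * (field A 0 1 x : ℂ) * φ x) := by rw [hc]
  have h5 : Complex.I * Complex.I = -1 := Complex.I_mul_I
  linear_combination (-1 : ℂ) * h4 + (covD A 0 (covD A 0 φ) x + (field A 0 1 x : ℂ) * φ x) * h5

lemma lap_normSq (h : BPS ε G η v φ A) (x : Plane) : ∑ j, pd j (pd j fun y => ‖φ y‖ ^ 2) x =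
    4 * ‖covD A 0 φ x‖ ^ 2 + Real.exp (η x) * (‖φ x‖ ^ 2 - ε ^ 2) * ‖φ x‖ ^ 2 := by
  have key : ∀ j : Fin 2, pd j (pd j fun y => ‖φ y‖ ^ 2) x = 2 * (‖covD A j φ x‖ ^ 2 +
      ((starRingEnd ℂ) (φ x) * covD A j (covD A j φ) x).re) := by
    intro j
    have e1 : (pd j fun y => ‖φ y‖ ^ 2) =
        fun y => (fun _ => (2 : ℝ)) y * ((starRingEnd ℂ) (φ y) * covD A j φ y).re :=
      funext fun y => pd_normSq h.hφ j y
    have hD : Smooth (covD A j φ) := Smooth.covD h.hA h.hφ j
    have hs : Smooth (fun y => ((starRingEnd ℂ) (φ y) * covD A j φ y).re) :=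
      Complex.reCLM.contDiff.comp (ContDiff.mul h.hφ.conj hD)
    have h0 : pd j (fun _ : Plane => (2 : ℝ)) x = 0 := by unfold pd; simp
    rw [e1, pd_mulR (contDiff_const) hs, h0, zero_mul, zero_add, pd_reConj (A := A) h.hφ hD]
    rw [Complex.add_re]
    have e2 : (starRingEnd ℂ) (covD A j φ x) * covD A j φ x = ((‖covD A j φ x‖ ^ 2 : ℝ) : ℂ) := by
      rw [mul_comm, normSq_eq]
    rw [e2, Complex.ofReal_re]
  rw [Fin.sum_univ_two, key, key, h.norm_D1]
  have h1 := congrArg (fun w => ((starRingEnd ℂ) (φ x) * w).re) (h.sum_DD x)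
  simp only [mul_add, Complex.add_re] at h1
  have h2 : ((starRingEnd ℂ) (φ x) * -((field A 0 1 x : ℂ) * φ x)).re =
      -(field A 0 1 x * ‖φ x‖ ^ 2) := by
    have : (starRingEnd ℂ) (φ x) * -((field A 0 1 x : ℂ) * φ x) =
        ((-(field A 0 1 x * ‖φ x‖ ^ 2) : ℝ) : ℂ) := by
      have := normSq_eq (φ x)
      push_cast at this ⊢
      linear_combination (-(field A 0 1 x : ℂ)) * this
    rw [this, Complex.ofReal_re]
  rw [h2, h.b2 x] at h1
  linarith

lemma lap_eta (h : BPS ε G η v φ A) (x : Plane) : ∑ j, pd j (pd j η) x =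
    -(4 * Real.pi * G) * (Real.exp (η x) * (‖φ x‖ ^ 2 - ε ^ 2) ^ 2 + 4 * ‖covD A 0 φ x‖ ^ 2) := by
  obtain ⟨c, hc⟩ := h.b3
  have hs : Smooth (fun y => ‖φ y‖ ^ 2) := ContDiff.norm_sq ℝ h.hφ
  have hcst : ∀ a : ℝ, Smooth (fun _ : Plane => a) := fun a => contDiff_const
  have h0 : ∀ (a : ℝ) (j : Fin 2) (x : Plane), pd j (fun _ : Plane => a) x = 0 := by
    intro a j x; unfold pd; simp
  have e1 : η = fun y => c + (4 * Real.pi * G) * (ε ^ 2 * v y - ‖φ y‖ ^ 2) := funext hc
  have hv2 : Smooth (fun y => ε ^ 2 * v y) := ContDiff.mul (hcst _) h.hv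
  have hd : Smooth (fun y => ε ^ 2 * v y - ‖φ y‖ ^ 2) := ContDiff.sub hv2 hs
  have hd2 : Smooth (fun y => (4 * Real.pi * G) * (ε ^ 2 * v y - ‖φ y‖ ^ 2)) :=
    ContDiff.mul (hcst _) hd
  have e2 : ∀ j y, pd j η y =
      (4 * Real.pi * G) * (ε ^ 2 * pd j v y - pd j (fun y => ‖φ y‖ ^ 2) y) := by
    intro j y
    rw [e1, pd_add' (hcst c) hd2, h0, zero_add, pd_mulR (hcst _) hd, h0, zero_mul, zero_add,
      pd_sub' hv2 hs, pd_mulR (hcst _) h.hv, h0, zero_mul, zero_add]
  have e3 : ∀ j, pd j (pd j η) x = (4 * Real.pi * G) *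
      (ε ^ 2 * pd j (pd j v) x - pd j (pd j fun y => ‖φ y‖ ^ 2) x) := by
    intro j
    have hvj : Smooth (fun y => ε ^ 2 * pd j v y) := ContDiff.mul (hcst _) (h.hv.pd j)
    have hsj := hs.pd j
    have hdj : Smooth (fun y => ε ^ 2 * pd j v y - pd j (fun y => ‖φ y‖ ^ 2) y) :=
      ContDiff.sub hvj hsj
    have e4 : pd j η = fun y =>
      (4 * Real.pi * G) * (ε ^ 2 * pd j v y - pd j (fun y => ‖φ y‖ ^ 2) y) := funext (e2 j)
    rw [e4, pd_mulR (hcst _) hdj, h0, zero_mul, zero_add, pd_sub' hvj hsj,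
      pd_mulR (hcst _) (h.hv.pd j), h0, zero_mul, zero_add]
  have h3 := h.lap_normSq x
  have h4 := h.b4 x
  rw [Fin.sum_univ_two] at h3 h4 ⊢
  rw [e3, e3]
  linear_combination (4 * Real.pi * G) * (ε ^ 2 * h4 - h3)

/-- the energy density is a divergence -/
lemma energy_div (h : BPS ε G η v φ A) (x : Plane) :
    energyDensity ε η φ A x * Real.exp (η x) =
      1 / 4 * (∑ j, pd j (pd j fun y => ‖φ y‖ ^ 2) x) - ε ^ 2 / 4 * ∑ j, pd j (pd j v) x := by
  rw [h.energy_eq, h.lap_normSq, h.b4]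
  have e1 : Real.exp (-η x) * Real.exp (η x) = 1 := by rw [← Real.exp_add]; simp
  linear_combination ‖covD A 0 φ x‖ ^ 2 * e1

lemma energy_nonneg (h : BPS ε G η v φ A) (x : Plane) : 0 ≤ energyDensity ε η φ A x := by
  rw [h.energy_eq]
  have := Real.exp_pos (-η x)
  positivity

theorem isSolution (h : BPS ε G η v φ A) : IsSolution ε G η φ A := by
  have e1 : ∀ x, Real.exp (-η x) * Real.exp (η x) = 1 := fun x => by
    rw [← Real.exp_add]; simp
  refine ⟨h.hη, h.hφ, h.hA, ?_, ?_, ?_, ?_⟩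
  · intro x
    unfold gaussCurvature
    rw [h.lap_eta, h.energy_eq]
    linear_combination (2 * Real.pi * G * (‖φ x‖ ^ 2 - ε ^ 2) ^ 2) * e1 x
  · intro j k x
    unfold stress
    rw [h.energy_eq]
    have hre : ∀ w : ℂ, (w * (starRingEnd ℂ) w).re = ‖w‖ ^ 2 := fun w => by
      rw [normSq_eq, Complex.ofReal_re]
    have hre' : ∀ w : ℂ, ((starRingEnd ℂ) w * w).re = ‖w‖ ^ 2 := fun w => by
      rw [mul_comm, normSq_eq, Complex.ofReal_re]
    have hF := h.b2 x
    have hx := e1 x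
    fin_cases j <;> fin_cases k <;>
      simp only [Fin.sum_univ_two, gUp, gLow, if_true, Fin.zero_eta, Fin.mk_one,
        if_neg (by decide : ¬ (0 : Fin 2) = 1),
        if_neg (by decide : ¬ (1 : Fin 2) = 0), field_self, field_swap,
        zero_mul, mul_zero, add_zero, zero_add, Complex.add_re, sub_zero, hre, hre', h.norm_D1]
    · rw [hF]
      linear_combination (1 / 4 * Real.exp (η x) * (‖φ x‖ ^ 2 - ε ^ 2) ^ 2 -
        ‖covD A 0 φ x‖ ^ 2) * hx
    · rw [h.b1 x]
      simp [Complex.mul_re, Complex.mul_im]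
      ring
    · rw [h.b1 x]
      simp [Complex.mul_re, Complex.mul_im]
      ring
    · rw [hF]
      linear_combination (1 / 4 * Real.exp (η x) * (‖φ x‖ ^ 2 - ε ^ 2) ^ 2 -
        ‖covD A 0 φ x‖ ^ 2) * hx
  · intro x
    have hg1 : ∀ j : Fin 2, (fun y => ((gUp η j j y * volDen η y : ℝ) : ℂ) * covD A j φ y) =
        covD A j φ := by
      intro j
      funext y
      unfold gUp volDen
      rw [if_pos rfl, e1 y]
      simp
    have hg0 : ∀ j k : Fin 2, j ≠ k → (fun y => ((gUp η j k y * volDen η y : ℝ) : ℂ) *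
        covD A k φ y) = fun _ => 0 := by
      intro j k hjk
      funext y
      unfold gUp volDen
      rw [if_neg hjk]
      simp
    have hz : ∀ j, covD A j (fun _ => (0 : ℂ)) x = 0 := by
      intro j; unfold covD pd; simp
    simp only [Fin.sum_univ_two, hg1, hg0 0 1 (by decide), hg0 1 0 (by decide), hz, add_zero,
      zero_add]
    rw [h.sum_DD, h.b2]
    unfold volDen
    have hne : ((Real.exp (η x) : ℝ) : ℂ) ≠ 0 := by
      exact_mod_cast (Real.exp_pos (η x)).ne'
    push_cast at hne ⊢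
    field_simp
  · intro j x
    have hg : ∀ j k j' k' : Fin 2, ¬ (j = k ∧ j' = k') →
        (fun y => gUp η j k y * gUp η j' k' y * volDen η y * field A k k' y) = fun _ => 0 := by
      intro j k j' k' hjk
      funext y
      unfold gUp
      by_cases h1 : j = k
      · have h2 : ¬ j' = k' := fun h2 => hjk ⟨h1, h2⟩
        rw [if_neg h2]; simp
      · rw [if_neg h1]; simp
    have hself : ∀ j k : Fin 2, (fun y => gUp η j k y * gUp η j k y * volDen η y *
        field A k k y) = fun _ => 0 := by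
      intro j k
      funext y
      rw [field_self]; ring
    have hz : ∀ j, pd j (fun _ : Plane => (0 : ℝ)) x = 0 := by
      intro j; unfold pd; simp
    have hs : Smooth (fun y => ‖φ y‖ ^ 2) := ContDiff.norm_sq ℝ h.hφ
    have hF01 : (fun y => gUp η 0 0 y * gUp η 1 1 y * volDen η y * field A 0 1 y) =
        fun y => (fun _ => (-(1 / 2) : ℝ)) y * (‖φ y‖ ^ 2 - (fun _ => ε ^ 2) y) := by
      funext y
      unfold gUp volDen
      rw [if_pos rfl, if_pos rfl, h.b2]
      linear_combination (-(1 / 2) * (‖φ y‖ ^ 2 - ε ^ 2)) *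
        (Real.exp (-η y) * Real.exp (η y) + 1) * e1 y
    have hF10 : (fun y => gUp η 1 1 y * gUp η 0 0 y * volDen η y * field A 1 0 y) =
        fun y => (fun _ => ((1 / 2) : ℝ)) y * (‖φ y‖ ^ 2 - (fun _ => ε ^ 2) y) := by
      funext y
      unfold gUp volDen
      rw [if_pos rfl, if_pos rfl, field_swap, h.b2]
      linear_combination ((1 / 2) * (‖φ y‖ ^ 2 - ε ^ 2)) *
        (Real.exp (-η y) * Real.exp (η y) + 1) * e1 y
    have hcst : ∀ a : ℝ, Smooth (fun _ : Plane => a) := fun a => contDiff_const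
    have h0 : ∀ (a : ℝ) (j : Fin 2), pd j (fun _ : Plane => a) x = 0 := by
      intro a j; unfold pd; simp
    have hd : Smooth (fun y => ‖φ y‖ ^ 2 - (fun _ : Plane => ε ^ 2) y) :=
      ContDiff.sub hs (hcst _)
    have hpd : ∀ (a : ℝ) (j : Fin 2), pd j (fun y => (fun _ => a) y *
        (‖φ y‖ ^ 2 - (fun _ : Plane => ε ^ 2) y)) x =
        a * (2 * ((starRingEnd ℂ) (φ x) * covD A j φ x).re) := by
      intro a j
      rw [pd_mulR (hcst a) hd, h0, zero_mul, zero_add, pd_sub' hs (hcst _), h0, sub_zero,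
        pd_normSq (A := A) h.hφ]
    have hD := h.b1 x
    fin_cases j
    · simp only [Fin.sum_univ_two, Fin.zero_eta, hg 0 1 0 0 (by decide), hg 0 1 0 1 (by decide),
        hg 0 0 0 1 (by decide), hg 0 1 1 0 (by decide), hg 0 1 1 1 (by decide),
        hg 0 0 1 0 (by decide), hself, hz, add_zero, zero_add, hF01, hpd]
      rw [hD]
      unfold gUp volDen
      simp only [if_true, if_neg (by decide : ¬ (0 : Fin 2) = 1), Complex.ofReal_zero, zero_mul,
        add_zero]
      rw [Real.exp_neg]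
      exact maxwell_aux0 _ _ _
    · simp only [Fin.sum_univ_two, Fin.mk_one, hg 1 0 0 0 (by decide), hg 1 0 0 1 (by decide),
        hg 1 1 0 1 (by decide), hg 1 0 1 0 (by decide), hg 1 0 1 1 (by decide),
        hg 1 1 1 0 (by decide), hself, hz, add_zero, zero_add, hF10, hpd]
      rw [hD]
      unfold gUp volDen
      simp only [if_true, if_neg (by decide : ¬ (1 : Fin 2) = 0), Complex.ofReal_zero, zero_mul,
        zero_add]
      rw [Real.exp_neg]
      exact maxwell_aux1 _ _ _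

end BPS

/-! ### Construction of the fields -/

/-- `z(x) - z(p)` -/
noncomputable def zc (p x : Plane) : ℂ :=
  ((x 0 - p 0 : ℝ) : ℂ) + Complex.I * ((x 1 - p 1 : ℝ) : ℂ)

lemma smooth_coord (i : Fin 2) (c : ℝ) : Smooth (fun x : Plane => x i - c) := by
  have h : ContDiff ℝ ((⊤ : ℕ∞) : WithTop ℕ∞) (fun x : Plane => x i) :=
    (EuclideanSpace.proj (𝕜 := ℝ) i : Plane →L[ℝ] ℝ).contDiff
  exact ContDiff.sub h contDiff_const

lemma pd_coord (i j : Fin 2) (c : ℝ) (x : Plane) :
    pd j (fun x : Plane => x i - c) x = if i = j then 1 else 0 := by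
  unfold pd
  have h := ((EuclideanSpace.proj (𝕜 := ℝ) i : Plane →L[ℝ] ℝ).hasFDerivAt (x := x)).sub_const c
  have h2 : HasFDerivAt (fun x : Plane => x i - c)
    (EuclideanSpace.proj (𝕜 := ℝ) i : Plane →L[ℝ] ℝ) x := h
  rw [h2.fderiv]
  simp [Pi.single_apply]

lemma smooth_zc (p : Plane) : Smooth (zc p) :=
  ContDiff.add (smooth_coord 0 (p 0)).ofReal
    (ContDiff.mul contDiff_const (smooth_coord 1 (p 1)).ofReal)

lemma pd_zc (p : Plane) (j : Fin 2) (x : Plane) :
    pd j (zc p) x = if j = 0 then 1 else Complex.I := by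
  have hI : Smooth (fun _ : Plane => Complex.I) := contDiff_const
  have h0 : pd j (fun _ : Plane => Complex.I) x = 0 := by unfold pd; simp
  have e : zc p = fun x => (fun y : Plane => ((y 0 - p 0 : ℝ) : ℂ)) x +
    (fun y : Plane => (fun _ : Plane => Complex.I) y * ((y 1 - p 1 : ℝ) : ℂ)) x := rfl
  rw [e, pd_add' (smooth_coord 0 (p 0)).ofReal (ContDiff.mul hI (smooth_coord 1 (p 1)).ofReal),
    pd_ofReal (smooth_coord 0 (p 0)), pd_mulC hI (smooth_coord 1 (p 1)).ofReal, h0,
    pd_ofReal (smooth_coord 1 (p 1)), pd_coord, pd_coord]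
  fin_cases j <;> simp

lemma norm_zc (p x : Plane) : ‖zc p x‖ ^ 2 = ‖x - p‖ ^ 2 := by
  rw [← Complex.normSq_eq_norm_sq, EuclideanSpace.real_norm_sq_eq, Fin.sum_univ_two,
    Complex.normSq_apply]
  unfold zc
  simp
  ring

lemma zc_eq_zero (p x : Plane) : zc p x = 0 ↔ x = p := by
  constructor
  · intro h
    have h1 := norm_zc p x
    rw [h, norm_zero] at h1
    have h2 : ‖x - p‖ = 0 := by
      have : ‖x - p‖ ^ 2 = 0 := by rw [← h1]; norm_num
      exact pow_eq_zero_iff (two_ne_zero) |>.1 this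
    exact sub_eq_zero.1 (norm_eq_zero.1 h2)
  · rintro rfl
    unfold zc
    simp

/-- holomorphic functions -/
def Hol (f : Plane → ℂ) : Prop := Smooth f ∧ ∀ x, pd 1 f x = Complex.I * pd 0 f x

lemma hol_const (c : ℂ) : Hol (fun _ => c) :=
  ⟨contDiff_const, fun x => by unfold pd; simp⟩

lemma Hol.mul {f g : Plane → ℂ} (hf : Hol f) (hg : Hol g) : Hol (fun x => f x * g x) := by
  refine ⟨ContDiff.mul hf.1 hg.1, fun x => ?_⟩
  rw [pd_mulC hf.1 hg.1, pd_mulC hf.1 hg.1, hf.2, hg.2]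
  ring

lemma Hol.pow {f : Plane → ℂ} (hf : Hol f) (m : ℕ) : Hol (fun x => f x ^ m) := by
  induction m with
  | zero => simpa using hol_const 1
  | succ m ih =>
    have := ih.mul hf
    simpa only [pow_succ] using this

lemma hol_zc (p : Plane) : Hol (zc p) := by
  refine ⟨smooth_zc p, fun x => ?_⟩
  rw [pd_zc, pd_zc]
  simp

lemma hol_prod {K : ℕ} (s : Finset (Fin K)) (p : Fin K → Plane) (n : Fin K → ℕ) :
    Hol (fun x => ∏ k ∈ s, zc (p k) x ^ n k) := by
  classical
  induction s using Finset.induction_on with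
  | empty => simpa using hol_const 1
  | insert i s hi ih =>
    have := ((hol_zc (p i)).pow (n i)).mul ih
    simpa only [Finset.prod_insert hi] using this

/-- the Higgs field -/
noncomputable def higgsField {K : ℕ} (p : Fin K → Plane) (n : Fin K → ℕ) (v : Plane → ℝ)
    (x : Plane) : ℂ := (Real.exp (1 / 2 * v x) : ℂ) * ∏ k, zc (p k) x ^ n k

/-- the gauge potential -/
noncomputable def gaugeField (v : Plane → ℝ) (j : Fin 2) (x : Plane) : ℝ :=
  if j = 0 then 1 / 2 * pd 1 v x else -(1 / 2) * pd 0 v x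

lemma smooth_gauge {v : Plane → ℝ} (hv : Smooth v) (j : Fin 2) : Smooth (gaugeField v j) := by
  unfold gaugeField
  by_cases h : j = 0
  · simp only [h, if_true]
    exact ContDiff.mul contDiff_const (hv.pd 1)
  · simp only [h, if_false]
    exact ContDiff.mul contDiff_const (hv.pd 0)

lemma smooth_exp {v : Plane → ℝ} (hv : Smooth v) : Smooth (fun x => Real.exp (1 / 2 * v x)) :=
  ContDiff.exp (ContDiff.mul contDiff_const hv)

lemma smooth_higgs {K : ℕ} (p : Fin K → Plane) (n : Fin K → ℕ) {v : Plane → ℝ} (hv : Smooth v) :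
    Smooth (higgsField p n v) :=
  ContDiff.mul (smooth_exp hv).ofReal (hol_prod Finset.univ p n).1

lemma norm_higgs {K : ℕ} (p : Fin K → Plane) (n : Fin K → ℕ) (v : Plane → ℝ) (x : Plane) :
    ‖higgsField p n v x‖ ^ 2 = PP p n x * Real.exp (v x) := by
  unfold higgsField PP
  rw [norm_mul, norm_prod, mul_pow, ← Finset.prod_pow, Complex.norm_real, Real.norm_eq_abs,
    abs_of_pos (Real.exp_pos _), ← Real.exp_nat_mul, mul_comm]
  congr 1
  · refine Finset.prod_congr rfl fun k _ => ?_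
    rw [norm_pow, ← pow_mul, mul_comm (n k) 2, pow_mul, norm_zc]
  · congr 1
    push_cast
    ring

lemma higgs_eq_zero {K : ℕ} (p : Fin K → Plane) (n : Fin K → ℕ) (hn : ∀ k, 1 ≤ n k)
    (v : Plane → ℝ) (x : Plane) : higgsField p n v x = 0 ↔ ∃ k, x = p k := by
  unfold higgsField
  rw [mul_eq_zero, Finset.prod_eq_zero_iff]
  constructor
  · rintro (h | ⟨k, -, h⟩)
    · exact absurd h (by exact_mod_cast (Real.exp_pos _).ne')
    · exact ⟨k, (zc_eq_zero _ _).1 (pow_eq_zero_iff (by have := hn k; omega) |>.1 h)⟩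
  · rintro ⟨k, rfl⟩
    right
    refine ⟨k, Finset.mem_univ k, ?_⟩
    rw [(zc_eq_zero _ _).2 rfl, zero_pow (by have := hn k; omega)]

lemma higgs_zero {K : ℕ} (p : Fin K → Plane) (hp : Function.Injective p) (n : Fin K → ℕ)
    {v : Plane → ℝ} (hv : Smooth v) (k : Fin K) : HasZero (higgsField p n v) (p k) (n k) := by
  classical
  refine ⟨fun x => (Real.exp (1 / 2 * v x) : ℂ) * ∏ i ∈ Finset.univ.erase k, zc (p i) x ^ n i,
    ContDiff.mul (smooth_exp hv).ofReal (hol_prod _ p n).1, ?_, fun x => ?_⟩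
  · refine mul_ne_zero (by exact_mod_cast (Real.exp_pos _).ne') ?_
    rw [Finset.prod_ne_zero_iff]
    intro i hi h
    have h1 : n i ≠ 0 := by
      intro h0; rw [h0, pow_zero] at h; exact one_ne_zero h
    have h2 := (zc_eq_zero _ _).1 ((pow_eq_zero_iff h1).1 h)
    exact Finset.ne_of_mem_erase hi (hp h2).symm
  · unfold higgsField
    rw [← Finset.mul_prod_erase Finset.univ _ (Finset.mem_univ k)]
    unfold zc
    ring

lemma higgs_bps {K : ℕ} (p : Fin K → Plane) (n : Fin K → ℕ) {v : Plane → ℝ} (hv : Smooth v)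
    (x : Plane) : covD (gaugeField v) 1 (higgsField p n v) x =
      Complex.I * covD (gaugeField v) 0 (higgsField p n v) x := by
  have hP := hol_prod Finset.univ p n
  have hcst : Smooth (fun _ : Plane => (1 / 2 : ℝ)) := contDiff_const
  have h0 : ∀ j, pd j (fun _ : Plane => (1 / 2 : ℝ)) x = 0 := by
    intro j; unfold pd; simp
  have hv2 : Smooth (fun y => 1 / 2 * v y) := ContDiff.mul contDiff_const hv
  have key : ∀ j, pd j (higgsField p n v) x =
      (1 / 2 * ((pd j v x : ℝ) : ℂ)) * higgsField p n v x + (Real.exp (1 / 2 * v x) : ℂ) *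
        pd j (fun x => ∏ k, zc (p k) x ^ n k) x := by
    intro j
    have e : higgsField p n v = fun x => (fun y => ((Real.exp (1 / 2 * v y) : ℝ) : ℂ)) x *
      (fun y => ∏ k, zc (p k) y ^ n k) x := rfl
    have e2 : pd j (fun y => Real.exp (1 / 2 * v y)) x =
        Real.exp (1 / 2 * v x) * (1 / 2 * pd j v x) := by
      rw [pd_expR hv2, pd_mulR hcst hv, h0, zero_mul, zero_add]
    rw [e, pd_mulC (smooth_exp hv).ofReal hP.1, pd_ofReal (smooth_exp hv), e2]
    push_cast
    ring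
  unfold covD
  rw [key, key, hP.2]
  unfold gaugeField
  simp only [if_true, if_neg (by decide : ¬ (1 : Fin 2) = 0)]
  push_cast
  have hI : Complex.I * Complex.I = -1 := Complex.I_mul_I
  linear_combination (1 / 2 * ((pd 1 v x : ℝ) : ℂ) * higgsField p n v x) * hI

lemma gauge_field {v : Plane → ℝ} (hv : Smooth v) (x : Plane) :
    field (gaugeField v) 0 1 x = -(1 / 2) * ∑ j, pd j (pd j v) x := by
  have hcst : ∀ c : ℝ, Smooth (fun _ : Plane => c) := fun c => contDiff_const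
  have h0 : ∀ (c : ℝ) (j : Fin 2), pd j (fun _ : Plane => c) x = 0 := by
    intro c j; unfold pd; simp
  unfold field
  have e1 : gaugeField v 1 = fun x => -(1 / 2) * pd 0 v x := by
    funext x; unfold gaugeField; simp
  have e0 : gaugeField v 0 = fun x => 1 / 2 * pd 1 v x := by
    funext x; unfold gaugeField; simp
  rw [e1, e0, pd_mulR (hcst _) (hv.pd 0), pd_mulR (hcst _) (hv.pd 1), h0, h0, Fin.sum_univ_two]
  ring

/-- **Main theorem.**  For all `ε, G > 0`, all distinct points `p_1, …, p_K` of the plane and all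
multiplicities `n_k ≥ 1` with `4 π ε² G n_k < 1`, the coupled Einstein and Abelian Higgs equations
have a smooth solution of finite energy whose Higgs field vanishes exactly at the `p_k`, with
multiplicities `n_k`.  The total string number `N = ∑ n_k` is arbitrary. -/
theorem result (ε G : ℝ) (hε : 0 < ε) (hG : 0 < G) (K : ℕ) (p : Fin K → Plane)
    (hp : Function.Injective p) (n : Fin K → ℕ) (hn : ∀ k, 1 ≤ n k)
    (hsub : ∀ k, 4 * Real.pi * ε ^ 2 * G * n k < 1) :
    ∃ (η : Plane → ℝ) (φ : Plane → ℂ) (A : Fin 2 → Plane → ℝ),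
      IsSolution ε G η φ A ∧ FiniteEnergy ε η φ A ∧ (∀ x, φ x = 0 ↔ ∃ k, x = p k) ∧
        ∀ k, HasZero φ (p k) (n k) := by
  set κ : ℝ := 4 * Real.pi * G with hκ
  set e : ℝ := ε ^ 2 with he
  set a : ℝ := κ * e with ha
  have hpi := Real.pi_pos
  have hκ0 : 0 < κ := by positivity
  have he0 : 0 < e := by positivity
  have ha0 : 0 < a := by positivity
  obtain ⟨nb, hnb, hanb⟩ : ∃ nb : ℕ, (∀ k, n k ≤ nb) ∧ a * nb < 1 := by
    refine ⟨Finset.univ.sup n, fun k => Finset.le_sup (Finset.mem_univ k), ?_⟩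
    rcases (Finset.univ : Finset (Fin K)).eq_empty_or_nonempty with h | h
    · rw [h]; simp
    · obtain ⟨k, -, hk⟩ := Finset.exists_mem_eq_sup _ h n
      rw [hk]
      have := hsub k
      calc a * n k = 4 * Real.pi * e * G * n k := by rw [ha, hκ]; ring
        _ < 1 := this
  obtain ⟨j, hj⟩ : ∃ j : ℕ, a * ∑ k, (n k : ℝ) ≤ j + 2 := by
    obtain ⟨j, hj⟩ := exists_nat_ge (a * ∑ k, (n k : ℝ))
    exact ⟨j, by linarith⟩
  obtain ⟨g, hg, t, B, ht, htB, hteq⟩ := exists_t j p hp n hn nb hnb a κ e ha0 hκ0 he0 hanb hj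
  have ht2 : ContDiff ℝ 2 t := by exact_mod_cast contDiff_infty.1 ht 2
  set v : Plane → ℝ := fun x => t x - GG j p n x with hv
  have hvs : Smooth v := ContDiff.sub ht (contDiff_GG j p n)
  set φ : Plane → ℂ := higgsField p n v with hφ
  have hφn : ∀ x, ‖φ x‖ ^ 2 = PP p n x * Real.exp (v x) := norm_higgs p n v
  set η : Plane → ℝ := fun x => Real.log g + κ * (e * v x - ‖φ x‖ ^ 2) with hη
  have hφs : Smooth φ := smooth_higgs p n hvs
  have hηs : Smooth η := ContDiff.add contDiff_const (ContDiff.mul contDiff_const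
    (ContDiff.sub (ContDiff.mul contDiff_const hvs) (ContDiff.norm_sq ℝ hφs)))
  have hexp : ∀ x, Real.exp (η x) = g * Real.exp (a * v x - κ * (PP p n x * Real.exp (v x))) := by
    intro x
    simp only [hη]
    rw [Real.exp_add, Real.exp_log hg, hφn]
    congr 2
    rw [ha]; ring
  have hb4 : ∀ x, ∑ j, pd j (pd j v) x = Real.exp (η x) * (‖φ x‖ ^ 2 - ε ^ 2) := by
    intro x
    rw [← lap_eq_pd hvs, hexp, hφn]
    exact lap_v ht2 hteq x
  have hbps : BPS ε G η v φ (gaugeField v) := by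
    refine ⟨hηs, hvs, hφs, smooth_gauge hvs, fun x => higgs_bps p n hvs x, fun x => ?_,
      ⟨Real.log g, fun x => rfl⟩, hb4⟩
    rw [gauge_field hvs, hb4]
    ring
  have hint : Integrable (fun x => energyDensity ε η φ (gaugeField v) x * Real.exp (η x)) := by
    have hW : Smooth (fun y => ‖φ y‖ ^ 2) := ContDiff.norm_sq ℝ hφs
    have hdiv : ∀ x, energyDensity ε η φ (gaugeField v) x * Real.exp (η x) =
        1 / 4 * lap (fun y => ‖φ y‖ ^ 2) x - e / 4 * lap v x := by
      intro x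
      rw [hbps.energy_div x, lap_eq_pd hW, lap_eq_pd hvs]
    have hW2 : ContDiff ℝ 2 (fun y => ‖φ y‖ ^ 2) := by exact_mod_cast contDiff_infty.1 hW 2
    have hv2 : ContDiff ℝ 2 v := by exact_mod_cast contDiff_infty.1 hvs 2
    refine integrable_energy (j := j) (p := p) (n := n) he0 ht2 htB _ ?_ ?_ ?_
    · simp only [hdiv]
      exact (continuous_const.mul (continuous_lap hW2)).sub
        (continuous_const.mul (continuous_lap hv2))
    · intro x
      exact mul_nonneg (hbps.energy_nonneg x) (Real.exp_pos _).le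
    · intro x
      rw [hdiv x]
      have : (fun y => ‖φ y‖ ^ 2) = fun y => PP p n y * Real.exp (t y - GG j p n y) :=
        funext hφn
      rw [this]
  refine ⟨η, φ, gaugeField v, hbps.isSolution, ⟨hint, ?_⟩, higgs_eq_zero p n hn v,
    higgs_zero p hp n hvs⟩
  have e1 : (fun x => gaussCurvature η x * Real.exp (η x)) = fun x => (8 * Real.pi * G) *
      (energyDensity ε η φ (gaugeField v) x * Real.exp (η x)) := by
    funext x
    rw [hbps.isSolution.einstein x]
    ring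
  rw [e1]
  exact hint.const_mul _

end Pool.Agent.Results.MP_e9f444_mp.ManyStrings
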